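import Pool.Agent.N236.CP.Abs

/-!
# Three commuting unital completely positive maps on `B(ℂ^11)` without any dilation

Idea. Let `θ` be an E-semigroup over `ℕ^3` on `ℬ` which dilates unital maps `T i` of the matrix algebra
`𝒜 = p ℬ p`. Then `θ i (p) ≥ p`, and for a projection `q` of `𝒜` with `(p - q) T i (q) (p - q) = 0` the
elements `ξ i = θ i (q) q` satisfy `θ k (ξ i) ξ k = θ i (ξ k) ξ i`. Each `ξ i` is a sum `∑ x K` over Kraus
operators `K` of the compression of `T i` to `q 𝒜 q` with orthonormal intertwiners `x ∈ ℬ`,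
`θ i (a) x = x a`. If the products of Kraus operators are linearly independent, the commutation relations
of the Kraus operators become commutation relations of the intertwiners, and associativity of
`x ⊙ y = θ k (x) y` gives the hexagon identity. In the example `A k B = ∑ U k l B A l`,
`A k C = ∑ V k l C A l`, `B C = C B`, all triple products are zero, and the hexagon identity would be
`U V = V U`, which is false. The maps `a ↦ ∑ K* a K` on `M_10` are contractive and nilpotent, and are made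
unital on `M_11`.
-/

set_option autoImplicit false

open scoped InnerProductSpace ComplexOrder
open Filter Topology ContinuousLinearMap

namespace Pool.Agent.Results.MP_0a86e9_an.NoDilation

universe u v

section Defs

/-- `B(H)`, the bounded operators on the complex Hilbert space `H`. -/
abbrev B (H : Type u) [NormedAddCommGroup H] [InnerProductSpace ℂ H] : Type u := H →L[ℂ] H

variable {H : Type u} [NormedAddCommGroup H] [InnerProductSpace ℂ H] [CompleteSpace H]

/-- `T` is a linear map of the von Neumann algebra `𝒜 ⊆ B(H)` into itself. (All maps of `𝒜` are given as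
functions on `B(H)`; their values outside `𝒜` do not matter.) -/
def IsLinearOn (𝒜 : VonNeumannAlgebra H) (T : B H → B H) : Prop :=
  (∀ a ∈ 𝒜, T a ∈ 𝒜) ∧ (∀ a ∈ 𝒜, ∀ b ∈ 𝒜, T (a + b) = T a + T b) ∧
    ∀ c : ℂ, ∀ a ∈ 𝒜, T (c • a) = c • T a

/-- `T` is completely positive on `𝒜`: `∑ i, ∑ j, ⟪h i, T (a i* a j) h j⟫ ≥ 0` for all finite families
`a i ∈ 𝒜`, `h i ∈ H`. -/
def IsCP (𝒜 : VonNeumannAlgebra H) (T : B H → B H) : Prop :=
  ∀ (n : ℕ) (a : Fin n → B H) (h : Fin n → H), (∀ i, a i ∈ 𝒜) →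
    0 ≤ ∑ i, ∑ j, ⟪h i, T (star (a i) * a j) (h j)⟫_ℂ

/-- Weak convergence of a net of operators: `⟪h, a i h⟫ → ⟪h, b h⟫` for all `h`. -/
def WeakLimit {I : Type u} [Preorder I] (a : I → B H) (b : B H) : Prop :=
  ∀ h : H, Tendsto (fun i => ⟪h, a i h⟫_ℂ) atTop (𝓝 ⟪h, b h⟫_ℂ)

/-- `T` is normal on `𝒜`: for every increasing net `a i` of elements of `𝒜` which converges weakly to
`b ∈ 𝒜`, `T (a i)` converges weakly to `T b`. -/
def IsNormalOn (𝒜 : VonNeumannAlgebra H) (T : B H → B H) : Prop :=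
  ∀ (I : Type u) [Preorder I] [IsDirectedOrder I] [Nonempty I] (a : I → B H) (b : B H),
    (∀ i, a i ∈ 𝒜) → b ∈ 𝒜 → (∀ i j, i ≤ j → a i ≤ a j) → WeakLimit a b →
      WeakLimit (fun i => T (a i)) (T b)

/-- `T` is a unital normal completely positive linear map of `𝒜`. -/
def IsNormalUCP (𝒜 : VonNeumannAlgebra H) (T : B H → B H) : Prop :=
  IsLinearOn 𝒜 T ∧ T 1 = 1 ∧ IsCP 𝒜 T ∧ IsNormalOn 𝒜 T

/-- The semigroup over `ℕ^3` generated by three commuting maps: `T_s = T_0^(s_0) T_1^(s_1) T_2^(s_2)`. -/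
def generated (T : Fin 3 → B H → B H) (s : Fin 3 → ℕ) (a : B H) : B H :=
  (T 0)^[s 0] ((T 1)^[s 1] ((T 2)^[s 2] a))

variable {K : Type v} [NormedAddCommGroup K] [InnerProductSpace ℂ K] [CompleteSpace K]

/-- `V x V*`, the operator `x` on `H` seen as an operator on `K ⊇ V(H)` which is zero on the orthogonal
complement of `V(H)`. -/
noncomputable def ext (V : H →ₗᵢ[ℂ] K) (x : B H) : B K :=
  V.toContinuousLinearMap ∘L x ∘L adjoint V.toContinuousLinearMap

/-- `V* y V`, the compression of the operator `y` on `K` to `H` (identified with `V(H) ⊆ K`). -/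
noncomputable def compr (V : H →ₗᵢ[ℂ] K) (y : B K) : B H :=
  adjoint V.toContinuousLinearMap ∘L y ∘L V.toContinuousLinearMap

/-- `H` is identified with a closed subspace of `K` by the isometry `V`, `p = V V*` is the projection of
`K` onto it; the von Neumann algebra `ℬ ⊆ B(K)` contains `p` and `𝒜 = p ℬ p`. -/
def IsCorner (𝒜 : VonNeumannAlgebra H) (V : H →ₗᵢ[ℂ] K) (ℬ : VonNeumannAlgebra K) : Prop :=
  ext V 1 ∈ ℬ ∧ ∀ y : B K, (∃ x ∈ 𝒜, y = ext V x) ↔ ∃ b ∈ ℬ, y = ext V 1 * b * ext V 1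

/-- `θ` is a `*`-endomorphism of `ℬ` (not necessarily unital, not assumed to be normal). -/
def IsStarEndo (ℬ : VonNeumannAlgebra K) (θ : B K → B K) : Prop :=
  IsLinearOn ℬ θ ∧ (∀ a ∈ ℬ, ∀ b ∈ ℬ, θ (a * b) = θ a * θ b) ∧ ∀ a ∈ ℬ, θ (star a) = star (θ a)

/-- `θ` is a semigroup over `ℕ^3` of `*`-endomorphisms of `ℬ`: `θ_0` is the identity and
`θ_(s+t) = θ_s ∘ θ_t`. -/
def IsSemigroup (ℬ : VonNeumannAlgebra K) (θ : (Fin 3 → ℕ) → B K → B K) : Prop :=
  (∀ s, IsStarEndo ℬ (θ s)) ∧ (∀ b ∈ ℬ, θ 0 b = b) ∧ ∀ s t, ∀ b ∈ ℬ, θ (s + t) b = θ s (θ t b)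

/-- `(p, K, ℬ, θ)` is a dilation of the family `T` of maps of `𝒜 ⊆ B(H)`, indexed by `ℕ^3`: `𝒜 = p ℬ p`
and `T_s (a) = p θ_s (a) p` for all `a ∈ 𝒜`. -/
def IsDilation (𝒜 : VonNeumannAlgebra H) (T : (Fin 3 → ℕ) → B H → B H)
    (V : H →ₗᵢ[ℂ] K) (ℬ : VonNeumannAlgebra K) (θ : (Fin 3 → ℕ) → B K → B K) : Prop :=
  IsCorner 𝒜 V ℬ ∧ IsSemigroup ℬ θ ∧ ∀ s, ∀ a ∈ 𝒜, compr V (θ s (ext V a)) = T s a

end Defs

section Ext

variable {H : Type u} [NormedAddCommGroup H] [InnerProductSpace ℂ H] [CompleteSpace H]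
variable {K : Type v} [NormedAddCommGroup K] [InnerProductSpace ℂ K] [CompleteSpace K]

lemma VV (V : H →ₗᵢ[ℂ] K) (h : H) :
    adjoint V.toContinuousLinearMap (V.toContinuousLinearMap h) = h := by
  apply ext_inner_left ℂ
  intro v
  rw [adjoint_inner_right]
  simp

lemma ext_mul (V : H →ₗᵢ[ℂ] K) (x y : H →L[ℂ] H) : ext V (x * y) = ext V x * ext V y := by
  ext k
  simp only [ext, mul_apply_eq_comp, ContinuousLinearMap.comp_apply, VV]

lemma ext_add (V : H →ₗᵢ[ℂ] K) (x y : H →L[ℂ] H) : ext V (x + y) = ext V x + ext V y := by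
  ext k
  simp [ext]

lemma ext_smul (V : H →ₗᵢ[ℂ] K) (c : ℂ) (x : H →L[ℂ] H) : ext V (c • x) = c • ext V x := by
  ext k
  simp [ext]

lemma ext_star (V : H →ₗᵢ[ℂ] K) (x : H →L[ℂ] H) : ext V (star x) = star (ext V x) := by
  rw [star_eq_adjoint, star_eq_adjoint]
  unfold ext
  rw [adjoint_comp, adjoint_comp, adjoint_adjoint]
  rfl

lemma ext_inj (V : H →ₗᵢ[ℂ] K) (x : H →L[ℂ] H) (h : ext V x = 0) : x = 0 := by
  ext k
  have h1 : ext V x (V.toContinuousLinearMap k) = 0 := by rw [h]; rfl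
  simp only [ext, ContinuousLinearMap.comp_apply, VV] at h1
  have h2 := congrArg (adjoint V.toContinuousLinearMap) h1
  rw [VV, map_zero] at h2
  rw [h2]; rfl

lemma ext_compr (V : H →ₗᵢ[ℂ] K) (y : K →L[ℂ] K) : ext V (compr V y) = ext V 1 * y * ext V 1 := by
  ext k
  simp only [ext, compr, mul_apply_eq_comp, ContinuousLinearMap.comp_apply,
    one_apply_eq_self]

end Ext

/-- `ℂ^11` -/
abbrev E11 : Type := EuclideanSpace ℂ (Fin 11)

/-- matrices as operators -/
noncomputable def toE : Matrix (Fin 11) (Fin 11) ℂ ≃⋆ₐ[ℂ] (E11 →L[ℂ] E11) := Matrix.toEuclideanCLM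

/-- all operators on `ℂ^11` -/
noncomputable def full : VonNeumannAlgebra E11 where
  toStarSubalgebra := ⊤
  centralizer_centralizer' := by
    ext x
    constructor
    · intro _; trivial
    · intro _ m hm
      exact (hm x trivial).symm

lemma TM_add (i : Fin 3) (a b : Matrix (Fin 11) (Fin 11) ℂ) :
    N236.CP.TM i (a + b) = N236.CP.TM i a + N236.CP.TM i b := by
  unfold N236.CP.TM
  rw [← Finset.sum_add_distrib]
  refine Finset.sum_congr rfl fun l _ => ?_
  rw [Matrix.mul_add, Matrix.add_mul]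

lemma TM_smul (i : Fin 3) (c : ℂ) (a : Matrix (Fin 11) (Fin 11) ℂ) :
    N236.CP.TM i (c • a) = c • N236.CP.TM i a := by
  unfold N236.CP.TM
  rw [Finset.smul_sum]
  refine Finset.sum_congr rfl fun l _ => ?_
  rw [Matrix.mul_smul, Matrix.smul_mul]

/-- the three maps -/
noncomputable def T3 (i : Fin 3) (a : B E11) : B E11 := toE (N236.CP.TM i (toE.symm a))

/-- the Kraus operators -/
noncomputable def LE (i : Fin 3) (k : Fin 2 ⊕ Fin 11) : E11 →L[ℂ] E11 := toE (N236.CP.LM i k)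

lemma T3_kraus (i : Fin 3) (a : B E11) (h h' : E11) :
    ⟪h, T3 i a h'⟫_ℂ = ∑ k, ⟪LE i k h, a (LE i k h')⟫_ℂ := by
  have e : T3 i a = ∑ k, star (LE i k) * a * LE i k := by
    unfold T3 N236.CP.TM
    rw [map_sum]
    refine Finset.sum_congr rfl fun k _ => ?_
    rw [map_mul, map_mul, StarAlgEquiv.apply_symm_apply, ← Matrix.star_eq_conjTranspose, map_star]
    rfl
  rw [e, _root_.sum_apply, inner_sum]
  refine Finset.sum_congr rfl fun k _ => ?_
  rw [mul_apply_eq_comp, mul_apply_eq_comp, star_eq_adjoint, adjoint_inner_right]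

lemma T3_linear (i : Fin 3) : IsLinearOn full (T3 i) := by
  refine ⟨fun _ _ => trivial, fun a _ b _ => ?_, fun c a _ => ?_⟩
  · unfold T3; rw [map_add, TM_add, map_add]
  · unfold T3; rw [map_smul, TM_smul, map_smul]

lemma T3_cp (i : Fin 3) : IsCP full (T3 i) := by
  intro n a h _
  simp_rw [T3_kraus]
  have e : ∑ p, ∑ q, ∑ k, ⟪LE i k (h p), (star (a p) * a q) (LE i k (h q))⟫_ℂ
      = ∑ k, ⟪∑ p, a p (LE i k (h p)), ∑ p, a p (LE i k (h p))⟫_ℂ := by
    simp_rw [sum_inner, inner_sum]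
    have : ∀ p q k, ⟪LE i k (h p), (star (a p) * a q) (LE i k (h q))⟫_ℂ
      = ⟪a p (LE i k (h p)), a q (LE i k (h q))⟫_ℂ := by
      intro p q k
      rw [mul_apply_eq_comp, star_eq_adjoint, adjoint_inner_right]
    simp_rw [this]
    rw [Finset.sum_comm' (t' := Finset.univ) (s' := fun _ => Finset.univ) (by simp)]
    rw [Finset.sum_comm]
    conv_rhs => rw [Finset.sum_comm]
    refine Finset.sum_congr rfl fun p _ => ?_
    rw [Finset.sum_comm]
  rw [e]
  refine Finset.sum_nonneg fun k _ => ?_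
  rw [inner_self_eq_norm_sq_to_K]
  rw [← RCLike.ofReal_pow]
  exact RCLike.ofReal_nonneg.mpr (sq_nonneg _)

lemma T3_normal (i : Fin 3) : IsNormalOn full (T3 i) := by
  intro I _ _ _ a b _ _ _ hab h
  simp_rw [T3_kraus]
  exact tendsto_finsetSum _ fun k _ => hab _

lemma T3_one (i : Fin 3) : T3 i 1 = 1 := by
  unfold T3
  rw [map_one, N236.CP.TM_one, map_one]

lemma T3_comm (i k : Fin 3) (a : B E11) : T3 i (T3 k a) = T3 k (T3 i a) := by
  unfold T3
  rw [StarAlgEquiv.symm_apply_apply, StarAlgEquiv.symm_apply_apply, N236.CP.TM_comm]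

lemma gen_single {H : Type u} [NormedAddCommGroup H] [InnerProductSpace ℂ H]
    (T : Fin 3 → B H → B H) (i : Fin 3) : generated T (Pi.single i 1) = T i := by
  funext a
  unfold generated
  fin_cases i <;> simp

/-- the embedding of the matrices in `ℬ` -/
noncomputable def emb {K : Type v} [NormedAddCommGroup K] [InnerProductSpace ℂ K] [CompleteSpace K]
    (V : E11 →ₗᵢ[ℂ] K) (ℬ : VonNeumannAlgebra K)
    (hmem : ∀ x : E11 →L[ℂ] E11, ext V x ∈ ℬ.toStarSubalgebra) :
    Matrix (Fin 11) (Fin 11) ℂ →⋆ₙₐ[ℂ] ℬ.toStarSubalgebra where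
  toFun := fun m => ⟨ext V (toE m), hmem _⟩
  map_smul' := by
    intro c m
    apply Subtype.ext
    show ext V (toE (c • m)) = c • ext V (toE m)
    rw [map_smul, ext_smul]
  map_zero' := by
    apply Subtype.ext
    show ext V (toE 0) = 0
    rw [map_zero]
    ext k
    simp [ext]
  map_add' := by
    intro m m'
    apply Subtype.ext
    show ext V (toE (m + m')) = ext V (toE m) + ext V (toE m')
    rw [map_add, ext_add]
  map_mul' := by
    intro m m'
    apply Subtype.ext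
    show ext V (toE (m * m')) = ext V (toE m) * ext V (toE m')
    rw [map_mul, ext_mul]
  map_star' := by
    intro m
    apply Subtype.ext
    show ext V (toE (star m)) = star (ext V (toE m))
    rw [map_star, ext_star]

/-- a `*`-endomorphism as a homomorphism -/
def hom {K : Type v} [NormedAddCommGroup K] [InnerProductSpace ℂ K] [CompleteSpace K]
    (ℬ : VonNeumannAlgebra K) (θ : B K → B K) (h : IsStarEndo ℬ θ) :
    ℬ.toStarSubalgebra →⋆ₙₐ[ℂ] ℬ.toStarSubalgebra where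
  toFun := fun b => ⟨θ b, h.1.1 _ b.2⟩
  map_smul' := fun c b => Subtype.ext (h.1.2.2 c b b.2)
  map_zero' := by
    apply Subtype.ext
    show θ 0 = 0
    have := h.1.2.2 0 0 (zero_mem ℬ.toStarSubalgebra)
    simpa using this
  map_add' := fun b b' => Subtype.ext (h.1.2.1 b b.2 b' b'.2)
  map_mul' := fun b b' => Subtype.ext (h.2.1 b b.2 b' b'.2)
  map_star' := fun b => Subtype.ext (h.2.2 b b.2)

theorem no_dil (K : Type v) [NormedAddCommGroup K] [InnerProductSpace ℂ K] [CompleteSpace K]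
    (V : E11 →ₗᵢ[ℂ] K) (ℬ : VonNeumannAlgebra K) (θ : (Fin 3 → ℕ) → B K → B K) :
    ¬ IsDilation full (generated T3) V ℬ θ := by
  rintro ⟨⟨hproj, hcor⟩, ⟨hend, -, hadd⟩, hdil⟩
  have hmem : ∀ x : E11 →L[ℂ] E11, ext V x ∈ ℬ.toStarSubalgebra := by
    intro x
    obtain ⟨b, hb, h2⟩ := (hcor (ext V x)).mp ⟨x, trivial, rfl⟩
    rw [h2]
    exact mul_mem (mul_mem hproj hb) hproj
  set ι := emb V ℬ hmem with hιdef
  have hι : ∀ m, ((ι m : ℬ.toStarSubalgebra) : K →L[ℂ] K) = ext V (toE m) := fun m => rfl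
  have hpos : ∀ x : ℬ.toStarSubalgebra, star x * x = 0 → x = 0 := by
    intro x hx
    apply Subtype.ext
    have h1 : star (x : K →L[ℂ] K) * (x : K →L[ℂ] K) = 0 := congrArg Subtype.val hx
    exact CStarRing.star_mul_self_eq_zero_iff _ |>.mp h1
  have hinj : ∀ m, ι m = 0 → m = 0 := by
    intro m hm
    have h1 : ext V (toE m) = 0 := congrArg Subtype.val hm
    have h2 := ext_inj V _ h1
    exact (map_eq_zero_iff toE toE.injective).mp h2
  let Θ : Fin 3 → ℬ.toStarSubalgebra →⋆ₙₐ[ℂ] ℬ.toStarSubalgebra :=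
    fun i => hom ℬ (θ (Pi.single i 1)) (hend _)
  have hΘ : ∀ i (b : ℬ.toStarSubalgebra), ((Θ i b : ℬ.toStarSubalgebra) : K →L[ℂ] K)
      = θ (Pi.single i 1) b := fun i b => rfl
  have hcomm : ∀ i k x, Θ i (Θ k x) = Θ k (Θ i x) := by
    intro i k x
    apply Subtype.ext
    rw [hΘ, hΘ, hΘ, hΘ, ← hadd _ _ _ x.2, ← hadd _ _ _ x.2, add_comm]
  refine N236.CP.no_dilation hpos ι hinj Θ hcomm ?_
  intro i m
  apply Subtype.ext
  have h1 := hdil (Pi.single i 1) (toE m) trivial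
  rw [gen_single] at h1
  show ((ι 1 : ℬ.toStarSubalgebra) : K →L[ℂ] K) * ((Θ i (ι m) : ℬ.toStarSubalgebra) : K →L[ℂ] K)
    * ((ι 1 : ℬ.toStarSubalgebra) : K →L[ℂ] K) = ext V (toE (N236.CP.TM i m))
  have h2 : T3 i (toE m) = toE (N236.CP.TM i m) := by
    unfold T3
    rw [StarAlgEquiv.symm_apply_apply]
  rw [hΘ, hι, hι, map_one, ← ext_compr, h1, h2]

/-- **There are three commuting unital normal completely positive maps on `B(ℂ^11)` such that the
semigroup over `ℕ^3` generated by them has no dilation whatsoever.** -/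
theorem result : ∃ (𝒜 : VonNeumannAlgebra (EuclideanSpace ℂ (Fin 11)))
    (T : Fin 3 → B (EuclideanSpace ℂ (Fin 11)) → B (EuclideanSpace ℂ (Fin 11))),
    (∀ x : B (EuclideanSpace ℂ (Fin 11)), x ∈ 𝒜) ∧ (∀ i, IsNormalUCP 𝒜 (T i)) ∧
    (∀ i k a, T i (T k a) = T k (T i a)) ∧
    ∀ (K : Type v) [NormedAddCommGroup K] [InnerProductSpace ℂ K] [CompleteSpace K]
      (V : EuclideanSpace ℂ (Fin 11) →ₗᵢ[ℂ] K) (ℬ : VonNeumannAlgebra K)
      (θ : (Fin 3 → ℕ) → B K → B K), ¬ IsDilation 𝒜 (generated T) V ℬ θ :=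
  ⟨full, T3, fun _ => trivial, fun i => ⟨T3_linear i, T3_one i, T3_cp i, T3_normal i⟩, T3_comm,
    fun K _ _ _ V ℬ θ => no_dil K V ℬ θ⟩

end Pool.Agent.Results.MP_0a86e9_an.NoDilation
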